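import Pool.Agent.Lib.MP_688fd0_co.SQ7.IfaceG
import Pool.Agent.Lib.MP_688fd0_co.SQ7.H79.Walk

/-!
Type C2, B1-FULL: consequences of the group data (`LvD`, parity, generators).
-/

set_option autoImplicit false

namespace Pool.Agent.Lib.MP_688fd0_co.SQ7

open Pool.Agent.Lib.MP_688fd0_co.OSF

variable {G : Type} [Group G]

/-- A conjugate of an element of a cyclic normal subgroup is a power of it. -/
theorem conj_pow {N : Subgroup G} (hN : N.Normal) (hc : IsCyclic N) (x : G) {y : G} (hy : y ∈ N) :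
    ∃ m : ℤ, x⁻¹ * y * x = y ^ m := by
  obtain ⟨γ, hγ⟩ := IsCyclic.exists_generator (α := N)
  have h1 : x⁻¹ * (γ : G) * x ∈ N := by
    have := hN.conj_mem γ.1 γ.2 x⁻¹
    rwa [inv_inv] at this
  obtain ⟨m, hm⟩ := Subgroup.mem_zpowers_iff.1 (hγ ⟨_, h1⟩)
  have hm : (γ : G) ^ m = x⁻¹ * (γ : G) * x := by
    have := congrArg Subtype.val hm
    simpa using this
  obtain ⟨i, hi⟩ := Subgroup.mem_zpowers_iff.1 (hγ ⟨y, hy⟩)
  have hi : (γ : G) ^ i = y := by
    have := congrArg Subtype.val hi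
    simpa using this
  refine ⟨m, ?_⟩
  have h2 : x⁻¹ * (γ : G) ^ i * x = (x⁻¹ * (γ : G) * x) ^ i := by
    have := conj_zpow (a := x⁻¹) (b := (γ : G)) (i := i)
    rw [inv_inv] at this
    exact this.symm
  rw [← hi, h2, ← hm, ← zpow_mul, ← zpow_mul, mul_comm]

namespace Dat

variable {N C : Subgroup G} {eps : G →* ℤˣ} {k P : ℕ} {A : Set G} {S : Lets G} {D : Set G} {T V Nv : Subgroup G}
    {L δ : ℕ} {lev : G → ZMod L} (h : Dat N C eps k P A S D T V Nv L δ lev)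

include h

theorem NvN {x : G} (hx : x ∈ Nv) : x ∈ N := ((h.Nv_mem x).1 hx).1

theorem NvT {x : G} (hx : x ∈ Nv) : x ∈ T := ((h.Nv_mem x).1 hx).2.1

theorem Tle : T ≤ eps.ker := fun x hx => ((h.hT x).1 hx).2

theorem sv_mem (s : Lt) : S.sv s ∈ T := by
  rw [h.Tcl]; exact Subgroup.subset_closure ⟨s, rfl⟩

theorem mem_ker {x : G} : x ∈ eps.ker ↔ eps x = 1 := MonoidHom.mem_ker

theorem odd_al (i : Bool) : S.al i ∉ eps.ker := by
  intro h1
  have h2 := h.neg _ (h.al i)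
  rw [MonoidHom.mem_ker] at h1
  rw [h1] at h2
  exact absurd h2 (by decide)

theorem odd_be (i : Bool) : S.be i ∉ eps.ker := by
  intro h1
  have h2 := h.neg _ (h.be i)
  rw [MonoidHom.mem_ker] at h1
  rw [h1] at h2
  exact absurd h2 (by decide)

omit h in
theorem two {x y : G} (hx : x ∉ eps.ker) (hy : y ∉ eps.ker) : x⁻¹ * y ∈ eps.ker := by
  rw [MonoidHom.mem_ker] at *
  rcases Int.units_eq_one_or (eps x) with h1 | h1
  · exact absurd h1 hx
  rcases Int.units_eq_one_or (eps y) with h2 | h2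
  · exact absurd h2 hy
  rw [map_mul, map_inv, h1, h2]; decide

theorem dvd : P ∣ L := by
  rw [h.hL]; exact dvd_mul_of_dvd_right h.P_dvd δ

theorem lev_one : lev 1 = 0 := (h.lev_V 1 T.one_mem).2 V.one_mem

theorem lev_inv {x : G} (hx : x ∈ T) : lev x⁻¹ = - lev x := by
  have h1 := h.lev_mul x hx x⁻¹ (T.inv_mem hx)
  rw [mul_inv_cancel, h.lev_one] at h1
  exact eq_neg_of_add_eq_zero_right h1.symm

theorem lev_pow {x : G} (hx : x ∈ T) (n : ℕ) : lev (x ^ n) = n * lev x := by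
  induction n with
  | zero => simp [h.lev_one]
  | succ n ih => rw [pow_succ, h.lev_mul _ (T.pow_mem hx n) _ hx, ih]; push_cast; ring

theorem nrm {x y : G} (hy : y ∈ Nv) : x⁻¹ * y * x ∈ Nv := by
  obtain ⟨m, hm⟩ := conj_pow h.gn.Nn h.gn.Nc x (h.NvN hy)
  rw [hm]; exact Nv.zpow_mem hy m

/-- An element whose order is prime to `P` has `P`-level `0`. -/
theorem lev_cop [Finite G] {x : G} (hx : x ∈ T) (hP : ¬ P ∣ orderOf x) : ZMod.castHom h.dvd (ZMod P) (lev x) = 0 := by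
  have hPp := h.gn.prime
  haveI : Fact P.Prime := ⟨hPp⟩
  have h1 := h.lev_pow hx (orderOf x)
  rw [pow_orderOf_eq_one, h.lev_one] at h1
  have h2 := congrArg (ZMod.castHom h.dvd (ZMod P)) h1
  rw [map_zero, map_mul, map_natCast] at h2
  rcases mul_eq_zero.1 h2.symm with h3 | h3
  · exact absurd ((ZMod.natCast_eq_zero_iff _ _).1 h3) hP
  · exact h3

theorem lvd [Finite G] : H79.LvD S eps.ker T Nv L P lev where
  mul := h.lev_mul
  sv := h.lev_sv
  dvd := h.dvd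
  nle := fun x hx => h.NvT hx
  nrm := fun x _ y hy => h.nrm hy
  cnj := by
    intro x hx y hy
    have h1 : x⁻¹ * y * x ∈ Nv := h.nrm hy
    have h2 : x⁻¹ * y * x * y⁻¹ ∈ C := by
      have h3 := h.gn.act y (h.NvN hy) x⁻¹
      have h4 : eps x⁻¹ = 1 := by rw [map_inv, MonoidHom.mem_ker.1 hx, inv_one]
      rw [h4, inv_inv] at h3
      simpa using h3
    have h5 : x⁻¹ * y * x * y⁻¹ ∈ T := T.mul_mem (h.NvT h1) (T.inv_mem (h.NvT hy))
    have h6 : ¬ P ∣ orderOf (x⁻¹ * y * x * y⁻¹) := by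
      intro h7
      have h8 : orderOf (x⁻¹ * y * x * y⁻¹) ∣ Nat.card C := by
        have := orderOf_dvd_natCard (⟨_, h2⟩ : C)
        rwa [Subgroup.orderOf_mk] at this
      exact h.gn.ndvd (h7.trans h8)
    have h7 := h.lev_cop h5 h6
    have h8 : x⁻¹ * y * x = (x⁻¹ * y * x * y⁻¹) * y := by group
    rw [h8, h.lev_mul _ h5 _ (h.NvT hy), map_add, h7, zero_add]

end Dat

end Pool.Agent.Lib.MP_688fd0_co.SQ7
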