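import Pool.Agent.Lib.MP_688fd0_co.SQ4.H49.Walk
import Pool.Agent.Lib.MP_688fd0_co.SQ3.H43.Factor2

/-!
The end of an argument with a 2-factor given by darts: every element `x` has two darts `(x, false)`, `(x, true)`; `e` is the
involution of the edges; one edge `{d₀, e d₀}` may be fictitious; at most two cycles, through `d₀` and through a neighbour `z`.
-/

set_option autoImplicit false

namespace Pool.Agent.Lib.MP_688fd0_co.SQ7.H71

open Function Pool.Agent.Lib.MP_688fd0_co.OSF Pool.Agent.Lib.MP_688fd0_co.SQ4.H49 Pool.Agent.Lib.MP_688fd0_co.SQ3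

universe u

/-- The other dart of the same vertex. -/
def fl {G : Type u} (x : G × Bool) : G × Bool := (x.1, !x.2)

section

variable {G : Type u}

theorem fl_fl (x : G × Bool) : fl (fl x) = x := by
  obtain ⟨x, b⟩ := x
  show (x, !(!b)) = (x, b)
  rw [Bool.not_not]

theorem fl_ne (x : G × Bool) : fl x ≠ x := by
  obtain ⟨x, b⟩ := x
  intro h
  have : (!b) = b := congrArg Prod.snd h
  cases b <;> cases this

theorem fl_inv : Inv (fl (G := G)) := fun x => ⟨fl_fl x, fl_ne x⟩

theorem eq_or_fl {x y : G × Bool} (h : x.1 = y.1) : x = y ∨ x = fl y := by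
  obtain ⟨x, b⟩ := x
  obtain ⟨y, c⟩ := y
  have h : x = y := h
  subst h
  by_cases hb : b = c
  · left; rw [hb]
  · right
    have : b = !c := by cases b <;> cases c <;> simp_all
    show (x, b) = (x, !c)
    rw [this]

variable {e : G × Bool → G × Bool}

/-- One step of the walk. -/
def nx (e : G × Bool → G × Bool) (d : G × Bool) : G × Bool := e (fl d)

theorem nx_inj (he : Inv e) : Injective (nx e) := by
  intro x y h
  have h1 := congrArg e h
  unfold nx at h1
  rw [(he _).1, (he _).1] at h1
  have h2 := congrArg fl h1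
  rwa [fl_fl, fl_fl] at h2

theorem nx_con (d : G × Bool) (n : ℕ) : Con fl e d ((nx e)^[n] d) := by
  induction n with
  | zero => exact Con.rfl'
  | succ n ih =>
    rw [iterate_succ_apply']
    exact ih.trans ((con_left _ _ _).trans (con_right _ _ _))

theorem fl_nx (he : Inv e) (d : G × Bool) : nx e (fl (nx e d)) = fl d := by
  unfold nx
  rw [fl_fl, (he _).1]

theorem back (he : Inv e) (d : G × Bool) (n m : ℕ) (h : m ≤ n) :
    (nx e)^[m] (fl ((nx e)^[n] d)) = fl ((nx e)^[n - m] d) := by
  induction m with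
  | zero => rfl
  | succ m ih =>
    rw [iterate_succ_apply', ih (by omega)]
    obtain ⟨j, hj⟩ : ∃ j, n - m = j + 1 := ⟨n - m - 1, by omega⟩
    rw [hj, show n - (m + 1) = j by omega, iterate_succ_apply', fl_nx he]

/-- The walk does not meet the reversed walk. -/
theorem nx_ne_fl (he : Inv e) (d : G × Bool) (n : ℕ) : (nx e)^[n] d ≠ fl d := by
  intro h
  have key : ∀ m ≤ n, (nx e)^[m] d = fl ((nx e)^[n - m] d) := by
    intro m hm
    have h1 := back he d n m hm
    rw [h, fl_fl] at h1
    exact h1
  rcases Nat.even_or_odd' n with ⟨j, hj | hj⟩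
  · have := key j (by omega)
    rw [show n - j = j by omega] at this
    exact fl_ne _ this.symm
  · have := key (j + 1) (by omega)
    rw [show n - (j + 1) = j by omega, iterate_succ_apply'] at this
    exact (he _).2 this

theorem nx_ne_fl' (he : Inv e) (d : G × Bool) (i j : ℕ) : (nx e)^[i] d ≠ fl ((nx e)^[j] d) := by
  intro h
  rcases le_total j i with hij | hij
  · obtain ⟨n, rfl⟩ := Nat.exists_eq_add_of_le hij
    rw [show j + n = n + j by omega, iterate_add_apply] at h
    exact nx_ne_fl he _ n h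
  · obtain ⟨n, rfl⟩ := Nat.exists_eq_add_of_le hij
    have h' : (nx e)^[i + n] d = fl ((nx e)^[i] d) := by rw [h, fl_fl]
    rw [show i + n = n + i by omega, iterate_add_apply] at h'
    exact nx_ne_fl he _ n h'

theorem con_nx [Finite G] (he : Inv e) {c d : G × Bool} (h : Con fl e c d) :
    ∃ k, (nx e)^[k] c = d ∨ fl ((nx e)^[k] c) = d := by
  have key : (∃ k, (nx e)^[k] c = c ∨ fl ((nx e)^[k] c) = c) ↔ ∃ k, (nx e)^[k] c = d ∨ fl ((nx e)^[k] c) = d := by
    refine Con.le (ρ := fun x y => (∃ k, (nx e)^[k] c = x ∨ fl ((nx e)^[k] c) = x) ↔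
      ∃ k, (nx e)^[k] c = y ∨ fl ((nx e)^[k] c) = y) ⟨fun _ => Iff.rfl, fun h => h.symm, fun h h' => h.trans h'⟩ ?_ ?_ h
    · have hf : ∀ x, (∃ k, (nx e)^[k] c = x ∨ fl ((nx e)^[k] c) = x) →
          ∃ k, (nx e)^[k] c = fl x ∨ fl ((nx e)^[k] c) = fl x := by
        rintro x ⟨k, rfl | rfl⟩
        · exact ⟨k, Or.inr rfl⟩
        · exact ⟨k, Or.inl (fl_fl _).symm⟩
      intro x
      refine ⟨hf x, fun hx => ?_⟩
      have := hf _ hx
      rwa [fl_fl] at this
    · have hf : ∀ x, (∃ k, (nx e)^[k] c = x ∨ fl ((nx e)^[k] c) = x) →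
          ∃ k, (nx e)^[k] c = e x ∨ fl ((nx e)^[k] c) = e x := by
        rintro x ⟨k, rfl | rfl⟩
        · rcases k with _ | k
          · obtain ⟨n, hn, hper⟩ := mem_periodicPts.1 ((nx_inj he).mem_periodicPts c)
            obtain ⟨m, rfl⟩ : ∃ m, n = m + 1 := ⟨n - 1, by omega⟩
            have h1 : (nx e)^[m + 1] c = c := hper
            rw [iterate_succ_apply'] at h1
            refine ⟨m, Or.inr ?_⟩
            show _ = e c
            have h2 := congrArg e h1
            unfold nx at h2
            rw [(he _).1] at h2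
            exact h2
          · refine ⟨k, Or.inr ?_⟩
            rw [iterate_succ_apply']
            exact (he _).1.symm
        · refine ⟨k + 1, Or.inl ?_⟩
          rw [iterate_succ_apply']
          rfl
      intro x
      refine ⟨hf x, fun hx => ?_⟩
      have := hf _ hx
      rwa [(he _).1] at this
  exact key.1 ⟨0, Or.inl rfl⟩

/-- A vertex on the cycle of `c`. -/
theorem vt_nx [Finite G] (he : Inv e) {c d : G × Bool} (h : Con fl e c d) :
    ∃ k < minimalPeriod (nx e) c, ((nx e)^[k] c).1 = d.1 := by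
  obtain ⟨k, hk⟩ := con_nx he h
  have hp : 0 < minimalPeriod (nx e) c := minimalPeriod_pos_iff_mem_periodicPts.2 ((nx_inj he).mem_periodicPts c)
  refine ⟨k % minimalPeriod (nx e) c, Nat.mod_lt _ hp, ?_⟩
  rw [iterate_mod_minimalPeriod_eq]
  rcases hk with rfl | rfl <;> rfl

theorem vt_inj (he : Inv e) {c : G × Bool} {i j : ℕ} (hi : i < minimalPeriod (nx e) c)
    (hj : j < minimalPeriod (nx e) c) (h : ((nx e)^[i] c).1 = ((nx e)^[j] c).1) : i = j := by
  rcases eq_or_fl h with h | h
  · exact iterate_injOn_Iio_minimalPeriod (Set.mem_Iio.2 hi) (Set.mem_Iio.2 hj) h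
  · exact absurd h (nx_ne_fl' he c i j)

end

/-- THE END. -/
theorem lst_of_darts {G : Type u} [Group G] [Finite G] {A : Set G} {e : G × Bool → G × Bool} (he : Inv e)
    (d₀ : G × Bool) (hA : ∀ d, d ≠ d₀ → d ≠ e d₀ → d.1⁻¹ * (e d).1 ∈ A) (z : G) (hz : d₀.1⁻¹ * z ∈ A)
    (hc : ∀ d, Con fl e d d₀ ∨ Con fl e d (z, true)) : Lst A := by
  classical
  set c := e d₀ with hcdef
  set n := minimalPeriod (nx e) c with hn
  have hnpos : 0 < n := minimalPeriod_pos_iff_mem_periodicPts.2 ((nx_inj he).mem_periodicPts c)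
  have hc₀ : Con fl e d₀ c := con_right _ _ _
  -- the last vertex of the first cycle
  have hlast : (nx e)^[n - 1] c = fl d₀ := by
    have h1 : (nx e)^[n] c = c := by rw [hn, iterate_minimalPeriod]
    obtain ⟨m, hm⟩ : ∃ m, n = m + 1 := ⟨n - 1, by omega⟩
    rw [hm, iterate_succ_apply'] at h1
    rw [hm, Nat.add_sub_cancel]
    have h2 := congrArg e h1
    unfold nx at h2
    rw [(he _).1, hcdef, (he _).1] at h2
    have h3 := congrArg fl h2
    rwa [fl_fl] at h3
  -- edges of the first cycle
  have hE : ∀ k, k + 1 < n → (((nx e)^[k] c).1)⁻¹ * ((nx e)^[k + 1] c).1 ∈ A := by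
    intro k hk
    rw [iterate_succ_apply']
    refine hA (fl ((nx e)^[k] c)) (fun h => ?_) fun h => ?_
    · have h1 : (nx e)^[k + 1] c = c := by
        rw [iterate_succ_apply']
        show e (fl _) = c
        rw [h]
      exact not_isPeriodicPt_of_pos_of_lt_minimalPeriod (Nat.succ_ne_zero k) hk h1
    · have h1 := congrArg fl h
      rw [fl_fl] at h1
      exact nx_ne_fl he c k h1
  by_cases hzc : Con fl e (z, true) d₀
  · refine H43.lst_of_walk A n (fun k => if k = 0 then c.1 * (d₀.1⁻¹ * z)⁻¹ else ((nx e)^[k - 1] c).1) ?_ ?_ ?_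
    · intro k hk
      rcases Nat.eq_zero_or_pos k with rfl | h0
      · simp only [if_true, if_neg (show ¬ 0 + 1 = 0 by omega)]
        show (c.1 * (d₀.1⁻¹ * z)⁻¹)⁻¹ * c.1 ∈ A
        rw [mul_inv_rev, inv_inv, mul_assoc, inv_mul_cancel, mul_one]
        exact hz
      · simp only [if_neg (show ¬ k = 0 by omega), if_neg (show ¬ k + 1 = 0 by omega)]
        have := hE (k - 1) (by omega)
        rwa [show k - 1 + 1 = k + 1 - 1 by omega] at this
    · intro i hi j hj hij
      simp only [if_neg (show ¬ i + 1 = 0 by omega), if_neg (show ¬ j + 1 = 0 by omega), Nat.add_sub_cancel] at hij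
      exact vt_inj he hi hj hij
    · intro g
      have h1 : Con fl e c (g, true) := by
        rcases hc (g, true) with h | h
        · exact hc₀.symm.trans h.symm
        · exact hc₀.symm.trans (h.trans hzc).symm
      obtain ⟨k, hk, hg⟩ := vt_nx he h1
      refine ⟨k, hk, ?_⟩
      simp only [if_neg (show ¬ k + 1 = 0 by omega), Nat.add_sub_cancel]
      exact hg
  · set n' := minimalPeriod (nx e) (z, true) with hn'
    have hnpos' : 0 < n' := minimalPeriod_pos_iff_mem_periodicPts.2 ((nx_inj he).mem_periodicPts _)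
    have hdis : ∀ i j, ((nx e)^[i] c).1 ≠ ((nx e)^[j] (z, true)).1 := by
      intro i j h
      apply hzc
      have h1 := nx_con (e := e) c i
      have h2 := nx_con (e := e) (z, true) j
      rcases eq_or_fl h with h | h
      · rw [h] at h1
        exact (h2.trans h1.symm).trans hc₀.symm
      · rw [h] at h1
        exact ((h2.trans (con_left _ _ _)).trans h1.symm).trans hc₀.symm
    have hE' : ∀ k, (((nx e)^[k] (z, true)).1)⁻¹ * ((nx e)^[k + 1] (z, true)).1 ∈ A := by
      intro k
      rw [iterate_succ_apply']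
      have h1 : Con fl e (z, true) (fl ((nx e)^[k] (z, true))) := (nx_con _ k).trans (con_left _ _ _)
      refine hA (fl ((nx e)^[k] (z, true))) (fun h => ?_) fun h => ?_
      · rw [h] at h1; exact hzc h1
      · rw [h] at h1; exact hzc (h1.trans hc₀.symm)
    refine H43.lst_of_walk A (n + n') (fun k => if k = 0 then c.1 * (d₀.1⁻¹ * z)⁻¹ else
      if k ≤ n then ((nx e)^[k - 1] c).1 else ((nx e)^[k - 1 - n] (z, true)).1) ?_ ?_ ?_
    · intro k hk
      rcases Nat.eq_zero_or_pos k with rfl | h0
      · simp only [if_true, if_neg (show ¬ 0 + 1 = 0 by omega), if_pos (show 0 + 1 ≤ n by omega)]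
        show (c.1 * (d₀.1⁻¹ * z)⁻¹)⁻¹ * c.1 ∈ A
        rw [mul_inv_rev, inv_inv, mul_assoc, inv_mul_cancel, mul_one]
        exact hz
      · simp only [if_neg (show ¬ k = 0 by omega), if_neg (show ¬ k + 1 = 0 by omega)]
        rcases Nat.lt_trichotomy k n with h | h | h
        · simp only [if_pos h.le, if_pos (show k + 1 ≤ n by omega)]
          have := hE (k - 1) (by omega)
          rwa [show k - 1 + 1 = k + 1 - 1 by omega] at this
        · simp only [if_pos h.le, if_neg (show ¬ k + 1 ≤ n by omega)]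
          rw [show k + 1 - 1 - n = 0 by omega, h, hlast]
          exact hz
        · simp only [if_neg (show ¬ k ≤ n by omega), if_neg (show ¬ k + 1 ≤ n by omega)]
          have := hE' (k - 1 - n)
          rwa [show k - 1 - n + 1 = k + 1 - 1 - n by omega] at this
    · intro i hi j hj hij
      simp only [if_neg (show ¬ i + 1 = 0 by omega), if_neg (show ¬ j + 1 = 0 by omega), Nat.add_sub_cancel] at hij
      rcases Nat.lt_or_ge i n with hi1 | hi1 <;> rcases Nat.lt_or_ge j n with hj1 | hj1
      · simp only [if_pos (show i + 1 ≤ n by omega), if_pos (show j + 1 ≤ n by omega)] at hij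
        exact vt_inj he hi1 hj1 hij
      · simp only [if_pos (show i + 1 ≤ n by omega), if_neg (show ¬ j + 1 ≤ n by omega)] at hij
        exact absurd hij (hdis _ _)
      · simp only [if_neg (show ¬ i + 1 ≤ n by omega), if_pos (show j + 1 ≤ n by omega)] at hij
        exact absurd hij.symm (hdis _ _)
      · simp only [if_neg (show ¬ i + 1 ≤ n by omega), if_neg (show ¬ j + 1 ≤ n by omega)] at hij
        have := vt_inj he (show i - n < minimalPeriod (nx e) (z, true) by omega)
          (show j - n < minimalPeriod (nx e) (z, true) by omega) hij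
        omega
    · intro g
      rcases hc (g, true) with h | h
      · obtain ⟨k, hk, hg⟩ := vt_nx he (hc₀.symm.trans h.symm)
        refine ⟨k, by omega, ?_⟩
        simp only [if_neg (show ¬ k + 1 = 0 by omega), if_pos (show k + 1 ≤ n by omega), Nat.add_sub_cancel]
        exact hg
      · obtain ⟨k, hk, hg⟩ := vt_nx he h.symm
        refine ⟨n + k, by omega, ?_⟩
        simp only [if_neg (show ¬ n + k + 1 = 0 by omega), if_neg (show ¬ n + k + 1 ≤ n by omega), Nat.add_sub_cancel,
          Nat.add_sub_cancel_left]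
        exact hg

end Pool.Agent.Lib.MP_688fd0_co.SQ7.H71
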