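import Pool.Agent.Lib.MP_688fd0_co.SQ7.IfaceG

/-!
Type C2, B1-FULL: the combination of the rows.
-/

set_option autoImplicit false

namespace Pool.Agent.Lib.MP_688fd0_co.SQ7.H71

open Pool.Agent.Lib.MP_688fd0_co.OSF

/-- The output of the row WRD for one group. -/
structure WOut {G : Type} [Group G] [Finite G] (N : Subgroup G) (k : ℕ) (S : Lets G) (T V Nv : Subgroup G) (L δ e : ℕ)
    (l₁ B D₁ l : ℕ) (r : ℕ → Lt) (lam g₀ : G) (f : ℕ) : Prop where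
  run : Run S T l r lam
  fpos : 0 < f
  hf : l.factorial ∣ f
  lamN : lam ^ f ∈ Nv
  hl : l₁ ∣ l * f
  l₁pos : 0 < l₁
  δl₁ : δ ∣ l₁
  cop : (Nat.card Nv).Coprime l₁
  cl : ∀ m, D₁ ≤ m → l₁ ∣ m → ∃ w : List Lt, w.length = m ∧ (w.map S.sv).prod ∈ Nv
  inv : ∀ s : Lt, ∃ w : List Lt, w.length ≤ D₁ ∧ l₁ ∣ w.length + 1 ∧ S.sv s * (w.map S.sv).prod ∈ Nv
  gen : Subgroup.zpowers g₀ = N ⊓ V
  gword : ∃ w : List Lt, w.length ≤ B ∧ w.length ≡ L [MOD l₁] ∧ ((w.map S.sv).prod)⁻¹ * g₀ ∈ Nv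
  one : Nat.card (N ⊓ V : Subgroup G) = 1 → l₁ = δ
  l₁le : l₁ ≤ (k + (Nat.card G).primeFactorsList.length) ^ e
  le : B + D₁ + l * f ≤ 2 ^ ((k + (Nat.card G).primeFactorsList.length) ^ e)

/-- One case of the final assembly (`p = true`: `N ⊓ V = 1`). -/
def CaseS (p : Bool) : Prop :=
  ∀ e : ℕ, ∃ c₀ : ℕ, ∀ (G : Type) [Group G] [Finite G] (N C : Subgroup G) (eps : G →* ℤˣ) (k P : ℕ) (A : Set G)
    (S : Lets G) (D : Set G) (T V Nv : Subgroup G) (L δ : ℕ) (lev : G → ZMod L) (l₁ B D₁ l : ℕ) (r : ℕ → Lt)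
    (lam g₀ : G) (f : ℕ), Dat N C eps k P A S D T V Nv L δ lev → WOut N k S T V Nv L δ e l₁ B D₁ l r lam g₀ f →
    SQD.Marg N k c₀ → A.ncard ≤ 2 * (Nat.card G).primeFactorsList.length + 10 →
    2 ^ ((k + (Nat.card G).primeFactorsList.length) ^ c₀) ≤ P → (Nat.card (N ⊓ V : Subgroup G) = 1 ↔ p = true) → Lst A

theorem pow_two_mono {s c c' P : ℕ} (hs : 0 < s) (h : c ≤ c') (hP : 2 ^ (s ^ c') ≤ P) : 2 ^ (s ^ c) ≤ P :=
  (Nat.pow_le_pow_right (by norm_num) (Nat.pow_le_pow_right hs h)).trans hP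

theorem marg_mono {G : Type} [Group G] {N : Subgroup G} {k c c' : ℕ} (h : c ≤ c') (hM : SQD.Marg N k c') :
    SQD.Marg N k c := fun p hp => lt_of_le_of_lt (Nat.pow_le_pow_right (by omega) h) (hM p hp)

theorem b1full_of (hG : GrpS) (hW : WrdS) (h1 : CaseS true) (h2 : CaseS false) : SQD.B1FullB := by
  intro c₁
  obtain ⟨cg, hG⟩ := hG
  obtain ⟨e, hW⟩ := hW c₁
  obtain ⟨c1, h1⟩ := h1 e
  obtain ⟨c2, h2⟩ := h2 e
  refine ⟨cg + c1 + c2, ?_⟩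
  intro G _ _ N C eps k P A hR hM hS hA hP
  have hk : 0 < k + (Nat.card G).primeFactorsList.length := by
    have : 0 < k := by
      rw [← hR.gn.idx]
      exact Nat.pos_of_ne_zero N.index_ne_zero_of_finite
    omega
  rcases hG G N C eps k P A c₁ hR hS (pow_two_mono hk (by omega) hP) with h | ⟨S, D, T, V, Nv, L, δ, lev, hD⟩
  · exact h
  obtain ⟨l₁, B, D₁, l, r, lam, g₀, f, a1, a2, a3, a4, a5, a6, a7, a8, a9, a10, a11, a12, a13, a14, a15⟩ :=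
    hW G N C eps k P A S D T V Nv L δ lev hR hD
  have hO : WOut N k S T V Nv L δ e l₁ B D₁ l r lam g₀ f :=
    ⟨a1, a2, a3, a4, a5, a6, a7, a8, a9, a10, a11, a12, a13, a14, a15⟩
  by_cases hc : Nat.card (N ⊓ V : Subgroup G) = 1
  · exact h1 G N C eps k P A S D T V Nv L δ lev l₁ B D₁ l r lam g₀ f hD hO (marg_mono (by omega) hM) hA
      (pow_two_mono hk (by omega) hP) ⟨fun _ => rfl, fun _ => hc⟩
  · exact h2 G N C eps k P A S D T V Nv L δ lev l₁ B D₁ l r lam g₀ f hD hO (marg_mono (by omega) hM) hA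
      (pow_two_mono hk (by omega) hP) ⟨fun h => absurd h hc, fun h => absurd h (by decide)⟩

end Pool.Agent.Lib.MP_688fd0_co.SQ7.H71
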