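import Pool.Agent.Lib.MP_688fd0_co.SQ7.H71.Comb
import Pool.Agent.Lib.MP_688fd0_co.SQ7.H64.GrpA
import Pool.Agent.Lib.MP_688fd0_co.SQ7.H95.GrpC
import Pool.Agent.Lib.MP_688fd0_co.SQ7.H31.WrdA
import Pool.Agent.Lib.MP_688fd0_co.SQ7.H53.Num
import Pool.Agent.Lib.MP_688fd0_co.SQ7.H79.Case1
import Pool.Agent.Lib.MP_688fd0_co.SQ7.H41.Case2
import Pool.Agent.Lib.MP_688fd0_co.SQ6.H23.All

/-!
Type C2, LEVEL 4 (B1-FULL): the theorem.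
-/

set_option autoImplicit false

namespace Pool.Agent.Lib.MP_688fd0_co.SQ7.H71

theorem num (e : ℕ) : ∃ c₀ : ℕ, H79.NumS e c₀ := by
  obtain ⟨c₀, h⟩ := H53.num e
  refine ⟨c₀, fun k Ω P n R l₁ B D l f nF Bc a1 a2 a3 a4 a5 a6 a7 a8 a9 => ?_⟩
  obtain ⟨h1, h2⟩ := h k Ω P n R l₁ B D l f nF Bc a1 a2 a3 a4 a5 a6 a7 a8 a9
  exact ⟨fun p hp => ⟨(h1 p hp).1, (h1 p hp).2.2, (h1 p hp).2.1⟩, h2⟩

theorem case1 : CaseS true := H79.case1_of num fun hD hA => H53.card_Cl hD hA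

theorem case2 : CaseS false := H41.case2_of num fun hD hA => H53.card_Cl hD hA

theorem grpS : GrpS := grp_of (H64.grpA SQ6.H23.twoH) H95.grpBS

/-- **LEVEL 4.** -/
theorem b1fullB : SQD.B1FullB := b1full_of grpS H31.wrdS case1 case2

end Pool.Agent.Lib.MP_688fd0_co.SQ7.H71
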