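import Pool.Agent.Lib.MP_688fd0_co.SQ5.H12.Union

/-!
LADDER (finding 4328). Two strands and `m` marks, each mark on the first or on the second strand; the bottoms and tops of
the two strands are free ports. The region has `Sep` for every outside.

Ports: `D ⊕ D`, `inl` = outs (exits and tops), `inr` = ins (entries and bottoms); the inside is a permutation `g` of `D`
(`inl o` is joined with `inr (g o)`). The mark `i` on the strand `σ` multiplies by `swap (ex i) (tp σ)`.
-/

set_option autoImplicit false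

namespace Pool.Agent.Lib.MP_688fd0_co.SQ7.H71

open Function Equiv
open Pool.Agent.Lib.MP_688fd0_co.SQ4.H49 Pool.Agent.Lib.MP_688fd0_co.SQ5.H12

universe u

/-! ### Toggles -/

section tog

variable {P : Type u}

/-- `k'` is `k` with the pairs `{a, k a}`, `{b, k b}` replaced by `{a, k b}`, `{b, k a}`. -/
structure Tog (k k' : P → P) (a b : P) : Prop where
  hk : Inv k
  ab : b ≠ a
  akb : b ≠ k a
  h1 : k' a = k b
  h2 : k' b = k a
  h3 : k' (k a) = b
  h4 : k' (k b) = a
  off : ∀ x, x ≠ a → x ≠ b → x ≠ k a → x ≠ k b → k' x = k x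

/-- The four ports of a toggle. -/
def U4 (k : P → P) (a b : P) : Set P := {x | x = a ∨ x = k a ∨ x = b ∨ x = k b}

open Classical in
/-- The inside without the two pairs. -/
noncomputable def kT (k : P → P) (a b : P) (x : P) : P := if x ∈ U4 k a b then x else k x

variable {k k' O : P → P} {a b : P}

theorem spt_univ (h : Inv O) : Spt Set.univ O := fun x =>
  ⟨(h x).1, iff_of_false (h x).2 fun h' => h' (Set.mem_univ _)⟩

theorem u4_k (hk : Inv k) {x : P} : k x ∈ U4 k a b ↔ x ∈ U4 k a b := by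
  have h : ∀ x, x ∈ U4 k a b → k x ∈ U4 k a b := by
    rintro x (rfl | rfl | rfl | rfl)
    · exact Or.inr (Or.inl rfl)
    · exact Or.inl (hk _).1
    · exact Or.inr (Or.inr (Or.inr rfl))
    · exact Or.inr (Or.inr (Or.inl (hk _).1))
  refine ⟨fun h' => ?_, h x⟩
  have := h _ h'
  rwa [(hk x).1] at this

theorem kT_on {x : P} (hx : x ∈ U4 k a b) : kT k a b x = x := by
  unfold kT; rw [if_pos hx]

theorem kT_off {x : P} (hx : x ∉ U4 k a b) : kT k a b x = k x := by
  unfold kT; rw [if_neg hx]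

theorem kT_spt (hk : Inv k) : Spt (U4 k a b)ᶜ (kT k a b) := by
  intro x
  by_cases hx : x ∈ U4 k a b
  · rw [kT_on hx, kT_on hx]
    exact ⟨rfl, iff_of_true rfl fun h => h hx⟩
  · rw [kT_off hx, kT_off fun h => hx ((u4_k hk).1 h)]
    exact ⟨(hk x).1, iff_of_false (hk x).2 fun h => h hx⟩

theorem reg (hO : Inv O) (hk : Inv k) : Reg O (kT k a b) (U4 k a b)ᶜ (U4 k a b) :=
  ⟨by rw [Set.compl_union_self]; exact spt_univ hO, kT_spt hk, disjoint_compl_left⟩

/-- The cut at the four ports. -/
theorem cut4 (hk : Inv k) {x y : P} (h : Con O k x y) :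
    Con O (kT k a b) x y ∨ (∃ e ∈ U4 k a b, Con O (kT k a b) x e) ∧ ∃ e ∈ U4 k a b, Con O (kT k a b) y e := by
  refine Con.le (ρ := fun x y => Con O (kT k a b) x y ∨ (∃ e ∈ U4 k a b, Con O (kT k a b) x e) ∧
    ∃ e ∈ U4 k a b, Con O (kT k a b) y e) ⟨?_, ?_, ?_⟩ ?_ ?_ h
  · intro x; exact Or.inl Con.rfl'
  · rintro x y (h | ⟨h1, h2⟩)
    · exact Or.inl h.symm
    · exact Or.inr ⟨h2, h1⟩
  · rintro x y z (h | ⟨h1, h2⟩) (h' | ⟨h1', h2'⟩)
    · exact Or.inl (h.trans h')
    · obtain ⟨e, he, h3⟩ := h1'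
      exact Or.inr ⟨⟨e, he, h.trans h3⟩, h2'⟩
    · obtain ⟨e, he, h3⟩ := h2
      exact Or.inr ⟨h1, e, he, h'.symm.trans h3⟩
    · exact Or.inr ⟨h1, h2'⟩
  · intro x; exact Or.inl (con_left _ _ _)
  · intro x
    by_cases hx : x ∈ U4 k a b
    · exact Or.inr ⟨⟨x, hx, Con.rfl'⟩, k x, (u4_k hk).2 hx, Con.rfl'⟩
    · left
      have := con_right O (kT k a b) x
      rwa [kT_off hx] at this

theorem con_comm {x y : P} (h : Con O k x y) : Con k O x y :=
  Con.le (ρ := Con k O) ⟨fun _ => Con.rfl', fun h => h.symm, fun h h' => h.trans h'⟩ (fun x => con_right _ _ x)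
    (fun x => con_left _ _ x) h

theorem kT_le {x y : P} (h : Con O (kT k a b) x y) : Con O k x y := by
  refine Con.le (ρ := Con O k) ⟨fun _ => Con.rfl', fun h => h.symm, fun h h' => h.trans h'⟩ (fun x => con_left _ _ x)
    (fun x => ?_) h
  by_cases hx : x ∈ U4 k a b
  · rw [kT_on hx]; exact Con.rfl'
  · rw [kT_off hx]; exact con_right _ _ _

theorem Tog.offU (t : Tog k k' a b) {x : P} (hx : x ∉ U4 k a b) : k' x = k x :=
  t.off x (fun h => hx (Or.inl h)) (fun h => hx (Or.inr (Or.inr (Or.inl h)))) (fun h => hx (Or.inr (Or.inl h)))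
    fun h => hx (Or.inr (Or.inr (Or.inr h)))

theorem Tog.le (t : Tog k k' a b) {x y : P} (h : Con O (kT k a b) x y) : Con O k' x y := by
  refine Con.le (ρ := Con O k') ⟨fun _ => Con.rfl', fun h => h.symm, fun h h' => h.trans h'⟩ (fun x => con_left _ _ x)
    (fun x => ?_) h
  by_cases hx : x ∈ U4 k a b
  · rw [kT_on hx]; exact Con.rfl'
  · rw [kT_off hx, ← t.offU hx]; exact con_right _ _ _

/-- A toggle between different components joins them. -/
theorem Tog.merge [Finite P] (t : Tog k k' a b) (hO : Inv O) (hn : ¬ Con O k a b) :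
    (∀ x y, Con O k x y → Con O k' x y) ∧ Con O k' a b := by
  obtain ⟨A, hA1, hA2, -, -⟩ := (reg (a := a) (b := b) hO t.hk).arcs
  have ha : a ∈ U4 k a b := Or.inl rfl
  have hb : b ∈ U4 k a b := Or.inr (Or.inr (Or.inl rfl))
  have h1 : Con O (kT k a b) a (k a) := by
    have h2 := hA2 a
    rcases hA1.mem ha with h | h | h | h
    · exact absurd h (hA1.ne ha)
    · rwa [h] at h2
    · rw [h] at h2; exact absurd (kT_le h2) hn
    · rw [h] at h2; exact absurd ((kT_le h2).trans (con_right _ _ _).symm) hn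
  have h3 : Con O (kT k a b) b (k b) := by
    have h2 := hA2 b
    rcases hA1.mem hb with h | h | h | h
    · rw [h] at h2; exact absurd (kT_le h2).symm hn
    · rw [h] at h2; exact absurd ((con_right _ _ _).trans (kT_le h2).symm) hn
    · exact absurd h (hA1.ne hb)
    · rwa [h] at h2
  have h4 := t.le h1
  have h5 := t.le h3
  refine ⟨fun x y h => Con.le (ρ := Con O k') ⟨fun _ => Con.rfl', fun h => h.symm, fun h h' => h.trans h'⟩
    (fun x => con_left _ _ x) (fun x => ?_) h, ?_⟩
  · by_cases hx : x ∈ U4 k a b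
    · rcases hx with rfl | rfl | rfl | rfl
      · exact h4
      · rw [(t.hk _).1]; exact h4.symm
      · exact h5
      · rw [(t.hk _).1]; exact h5.symm
    · rw [← t.offU hx]; exact con_right _ _ _
  · have h6 := con_right O k' a
    rw [t.h1] at h6
    exact h6.trans h5.symm

/-- Two arcs of a cycle cut it. -/
theorem disc [Finite P] (hO : Inv O) (hk : Inv k) {e₁ e₂ : P} (h1 : e₂ ≠ e₁) (h2 : e₂ ≠ O e₁) :
    ¬ ∀ x y, Con (kT O e₁ e₂) k x y := by
  intro h
  obtain ⟨A, hA1, -, hA3, -⟩ := (reg (a := e₁) (b := e₂) hk hO).arcs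
  have ha : e₁ ∈ U4 O e₁ e₂ := Or.inl rfl
  have k1 := hA3 e₁ ha (O e₁) (Or.inr (Or.inl rfl)) (con_comm (h _ _))
  have k2 := hA3 e₁ ha e₂ (Or.inr (Or.inr (Or.inl rfl))) (con_comm (h _ _))
  rcases k1 with k1 | k1
  · exact (hO _).2 k1
  rcases k2 with k2 | k2
  · exact h1 k2
  exact h2 (k2.trans k1.symm)

theorem low {e₁ e₂ x y : P} (h : Con O (kT k a b) x y) (h1 : ¬ Con O (kT k a b) x e₁)
    (h2 : ¬ Con O (kT k a b) x e₂) : Con (kT O e₁ e₂) k x y := by
  refine (Con.le (ρ := fun x y => Con O (kT k a b) x y ∧ (¬ Con O (kT k a b) x e₁ → ¬ Con O (kT k a b) x e₂ →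
    Con (kT O e₁ e₂) k x y)) ⟨?_, ?_, ?_⟩ ?_ ?_ h).2 h1 h2
  · exact fun _ => ⟨Con.rfl', fun _ _ => Con.rfl'⟩
  · rintro x y ⟨h1, h2⟩
    exact ⟨h1.symm, fun h3 h4 => (h2 (fun h => h3 (h1.symm.trans h)) fun h => h4 (h1.symm.trans h)).symm⟩
  · rintro x y z ⟨h1, h2⟩ ⟨h3, h4⟩
    exact ⟨h1.trans h3, fun h5 h6 => (h2 h5 h6).trans (h4 (fun h => h5 (h1.trans h)) fun h => h6 (h1.trans h))⟩
  · intro x
    refine ⟨con_left _ _ _, fun h1 h2 => ?_⟩
    have hx : x ∉ U4 O e₁ e₂ := by
      rintro (rfl | rfl | rfl | rfl)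
      · exact h1 Con.rfl'
      · exact h1 (con_left _ _ _).symm
      · exact h2 Con.rfl'
      · exact h2 (con_left _ _ _).symm
    have := con_left (kT O e₁ e₂) k x
    rwa [kT_off hx] at this
  · intro x
    refine ⟨con_right _ _ _, fun _ _ => ?_⟩
    by_cases hx : x ∈ U4 k a b
    · rw [kT_on hx]; exact Con.rfl'
    · rw [kT_off hx]; exact con_right _ _ _

/-- A toggle of a single cycle whose two points are separated by the arcs `e₁`, `e₂`. -/
theorem Tog.split [Finite P] (t : Tog k k' a b) (hO : Inv O) (htot : ∀ x y, Con O k x y) {e₁ e₂ : P}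
    (hn : ¬ Con (kT O e₁ e₂) k a b) (x : P) : Con O k' x e₁ ∨ Con O k' x e₂ := by
  obtain ⟨A, hA1, hA2, hA3, -⟩ := (reg (a := a) (b := b) hO t.hk).arcs
  have ha : a ∈ U4 k a b := Or.inl rfl
  obtain ⟨e, he, hxe⟩ : ∃ e ∈ U4 k a b, Con O (kT k a b) x e := by
    rcases cut4 (a := a) (b := b) t.hk (htot x a) with h | h
    · exact ⟨a, ha, h⟩
    · exact h.1
  by_cases h1 : Con O (kT k a b) e e₁
  · exact Or.inl (t.le (hxe.trans h1))
  by_cases h2 : Con O (kT k a b) e e₂
  · exact Or.inr (t.le (hxe.trans h2))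
  exfalso
  have h3 := low (hA2 e) h1 h2
  have hAe := hA1.mem he
  have hne := hA1.ne he
  by_cases h4 : A e = k e
  · -- the component of `e` would be closed
    apply h1
    have key : ∀ y, Con O k e y → (Con O (kT k a b) e e ↔ Con O (kT k a b) e y) := by
      intro y hy
      refine Con.le (ρ := fun x y => Con O (kT k a b) e x ↔ Con O (kT k a b) e y)
        ⟨fun _ => Iff.rfl, fun h => h.symm, fun h h' => h.trans h'⟩ ?_ ?_ hy
      · exact fun x => ⟨fun h => h.trans (con_left _ _ _), fun h => h.trans (con_left _ _ _).symm⟩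
      · intro x
        by_cases hx : x ∈ U4 k a b
        · have hke : Con O (kT k a b) e (k e) := by rw [← h4]; exact hA2 e
          constructor
          · intro h
            rcases hA3 e he x hx h with rfl | rfl
            · exact hke
            · rw [h4, (t.hk _).1]; exact Con.rfl'
          · intro h
            rcases hA3 e he (k x) ((u4_k t.hk).2 hx) h with h5 | h5
            · have : x = k e := by rw [← h5, (t.hk _).1]
              rw [this]; exact hke
            · have : x = e := by rw [h4] at h5; rw [← (t.hk x).1, h5, (t.hk _).1]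
              rw [this]; exact Con.rfl'
        · have := con_right O (kT k a b) x
          rw [kT_off hx] at this
          exact ⟨fun h => h.trans this, fun h => h.trans this.symm⟩
    exact (key _ (htot _ _)).1 Con.rfl'
  · apply hn
    have r : ∀ x, Con (kT O e₁ e₂) k x (k x) := fun x => con_right _ _ _
    rcases he with rfl | rfl | rfl | rfl <;> rcases hAe with h | h | h | h
    · exact absurd h hne
    · exact absurd h h4
    · rwa [h] at h3
    · rw [h] at h3; exact h3.trans (r _).symm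
    · rw [(t.hk _).1] at h4; exact absurd h h4
    · exact absurd h hne
    · rw [h] at h3; exact (r _).trans h3
    · rw [h] at h3; exact (r _).trans (h3.trans (r _).symm)
    · rw [h] at h3; exact h3.symm
    · rw [h] at h3; exact (r _).trans h3.symm
    · exact absurd h hne
    · exact absurd h h4
    · rw [h] at h3; exact ((r _).trans h3).symm
    · rw [h] at h3; exact ((r _).trans (h3.trans (r _).symm)).symm
    · rw [(t.hk _).1] at h4; exact absurd h h4
    · exact absurd h hne

end tog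

/-! ### Permutations as insides -/

section perm

variable {D : Type u}

/-- The inside of a permutation: `inl o` (out) is joined with `inr (g o)` (in). -/
def kk (g : Perm D) : D ⊕ D → D ⊕ D := Sum.elim (fun o => Sum.inr (g o)) fun i => Sum.inl (g.symm i)

theorem kk_inv (g : Perm D) : Inv (kk g) := by
  rintro (o | i)
  · exact ⟨congrArg Sum.inl (g.symm_apply_apply o), fun h => by cases h⟩
  · exact ⟨congrArg Sum.inr (g.apply_symm_apply i), fun h => by cases h⟩

variable [DecidableEq D]

theorem kk_tog (g : Perm D) {x y : D} (hxy : y ≠ x) : Tog (kk g) (kk (swap x y * g)) (Sum.inr x) (Sum.inr y) where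
  hk := kk_inv g
  ab := fun h => hxy (Sum.inr.inj h)
  akb := fun h => by cases h
  h1 := by
    show Sum.inl ((swap x y * g).symm x) = Sum.inl (g.symm y)
    congr 1
    rw [Equiv.symm_apply_eq]
    simp
  h2 := by
    show Sum.inl ((swap x y * g).symm y) = Sum.inl (g.symm x)
    congr 1
    rw [Equiv.symm_apply_eq]
    simp
  h3 := by
    show Sum.inr ((swap x y * g) (g.symm x)) = Sum.inr y
    simp
  h4 := by
    show Sum.inr ((swap x y * g) (g.symm y)) = Sum.inr x
    simp
  off := by
    rintro (o | i) h1 h2 h3 h4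
    · have h5 : g o ≠ x := fun h => h3 (by rw [← h]; exact congrArg Sum.inl (g.symm_apply_apply o).symm)
      have h6 : g o ≠ y := fun h => h4 (by rw [← h]; exact congrArg Sum.inl (g.symm_apply_apply o).symm)
      show Sum.inr ((swap x y * g) o) = Sum.inr (g o)
      rw [Perm.mul_apply, swap_apply_of_ne_of_ne h5 h6]
    · have h5 : i ≠ x := fun h => h1 (congrArg Sum.inr h)
      have h6 : i ≠ y := fun h => h2 (congrArg Sum.inr h)
      show Sum.inl ((swap x y * g).symm i) = Sum.inl (g.symm i)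
      congr 1
      rw [Equiv.symm_apply_eq, Perm.mul_apply, g.apply_symm_apply, swap_apply_of_ne_of_ne h5 h6]

/-- The inside of the ladder: mark `i` on the strand `c i`. -/
def gs (ex : ℕ → D) (tp : Bool → D) (c : ℕ → Bool) : ℕ → Perm D
  | 0 => 1
  | j + 1 => gs ex tp c j * swap (ex j) (tp (c j))

variable {ex : ℕ → D} {tp : Bool → D}

theorem gs_congr {c c' : ℕ → Bool} (j : ℕ) (h : ∀ i < j, c i = c' i) : gs ex tp c j = gs ex tp c' j := by
  induction j with
  | zero => rfl
  | succ j ih =>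
    show gs ex tp c j * swap (ex j) (tp (c j)) = gs ex tp c' j * swap (ex j) (tp (c' j))
    rw [ih fun i hi => h i (by omega), h j (by omega)]

/-- The last mark on the other strand does not change the content of a strand. -/
theorem gs_other {c : ℕ → Bool} {j : ℕ} (hd : ∀ i σ, ex i ≠ tp σ) (ht : tp false ≠ tp true) :
    gs ex tp c (j + 1) (tp (!c j)) = gs ex tp c j (tp (!c j)) := by
  show (gs ex tp c j * swap (ex j) (tp (c j))) (tp (!c j)) = _
  rw [Perm.mul_apply, swap_apply_of_ne_of_ne (hd _ _).symm]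
  cases c j
  · exact ht.symm
  · exact ht

theorem gs_self {c : ℕ → Bool} {j : ℕ} : gs ex tp c (j + 1) (tp (c j)) = gs ex tp c j (ex j) := by
  show (gs ex tp c j * swap (ex j) (tp (c j))) (tp (c j)) = _
  rw [Perm.mul_apply, swap_apply_right]

/-- The exits of the later marks are not used. -/
theorem gs_fix {c : ℕ → Bool} {j i : ℕ} {m : ℕ} (hd : ∀ i σ, ex i ≠ tp σ)
    (hi : ∀ i < m, ∀ j < m, ex i = ex j → i = j) (hj : j ≤ i) (him : i < m) : gs ex tp c j (ex i) = ex i := by
  induction j with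
  | zero => rfl
  | succ j ih =>
    show (gs ex tp c j * swap (ex j) (tp (c j))) (ex i) = _
    rw [Perm.mul_apply, swap_apply_of_ne_of_ne (fun h => ?_) (hd _ _), ih (by omega)]
    have := hi _ him _ (by omega) h
    omega

/-- The flip of the marks from `i` on. -/
def flp (c : ℕ → Bool) (i j : ℕ) : Bool := if j < i then c j else !c j

theorem swap_w (ht : tp false ≠ tp true) {x : D} (hx : ∀ σ, x ≠ tp σ) (s : Bool) :
    swap (tp false) (tp true) * swap x (tp (!s)) = swap x (tp s) * swap (tp false) (tp true) := by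
  have key : swap (tp false) (tp true) * swap x (tp (!s)) * (swap (tp false) (tp true))⁻¹ =
      swap (swap (tp false) (tp true) x) (swap (tp false) (tp true) (tp (!s))) := by
    rw [Equiv.swap_apply_apply]
  have h1 : swap (tp false) (tp true) x = x := swap_apply_of_ne_of_ne (hx _) (hx _)
  have h2 : swap (tp false) (tp true) (tp (!s)) = tp s := by
    cases s
    · exact swap_apply_right _ _
    · exact swap_apply_left _ _
  rw [h1, h2] at key
  rw [← key, inv_mul_cancel_right]

theorem gs_flp (ht : tp false ≠ tp true) (hd : ∀ i σ, ex i ≠ tp σ) (c : ℕ → Bool) (i n : ℕ) :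
    gs ex tp (flp c i) (i + n) = gs ex tp c i * swap (tp false) (tp true) * (gs ex tp c i)⁻¹ * gs ex tp c (i + n) *
      swap (tp false) (tp true) := by
  induction n with
  | zero =>
    rw [Nat.add_zero, inv_mul_cancel_right, mul_assoc, swap_mul_self, mul_one]
    exact gs_congr i fun j hj => by unfold flp; rw [if_pos hj]
  | succ n ih =>
    show gs ex tp (flp c i) (i + n) * swap (ex (i + n)) (tp (flp c i (i + n))) = _ * (gs ex tp c (i + n) *
      swap (ex (i + n)) (tp (c (i + n)))) * _
    have h1 : flp c i (i + n) = !c (i + n) := by unfold flp; rw [if_neg (by omega)]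
    rw [ih, h1, mul_assoc _ (swap (tp false) (tp true)) (swap (ex (i + n)) _), swap_w ht (hd _)]
    simp only [mul_assoc]

/-- Ladder with or without an exchange at the top. -/
def cfg (ex : ℕ → D) (tp : Bool → D) (m : ℕ) (x : (ℕ → Bool) × Bool) : Perm D :=
  gs ex tp x.1 m * (if x.2 then swap (tp false) (tp true) else 1)

theorem cfg_tog (ht : tp false ≠ tp true) (hd : ∀ i σ, ex i ≠ tp σ) (m : ℕ) (x : (ℕ → Bool) × Bool) {i : ℕ}
    (hi : i ≤ m) : swap (gs ex tp x.1 i (tp false)) (gs ex tp x.1 i (tp true)) * cfg ex tp m x =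
      cfg ex tp m (flp x.1 i, !x.2) := by
  obtain ⟨n, rfl⟩ := Nat.exists_eq_add_of_le hi
  obtain ⟨c, τ⟩ := x
  show swap (gs ex tp c i (tp false)) (gs ex tp c i (tp true)) * (gs ex tp c (i + n) * _) =
    gs ex tp (flp c i) (i + n) * _
  rw [Equiv.swap_apply_apply, gs_flp ht hd]
  cases τ
  · simp only [Bool.not_false, if_true, Bool.false_eq_true, if_false, mul_one]
    rw [mul_assoc _ (swap (tp false) (tp true)) (swap (tp false) (tp true)), swap_mul_self, mul_one]
  · simp only [Bool.not_true, if_true, Bool.false_eq_true, if_false, mul_one]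
    simp only [mul_assoc]

/-- If the two strands are connected at every level then all ports are connected. -/
theorem chain {m : ℕ} (ht : tp false ≠ tp true) (hd : ∀ i σ, ex i ≠ tp σ) (hi : ∀ i < m, ∀ j < m, ex i = ex j → i = j)
    (hs : ∀ d, (∃ σ, d = tp σ) ∨ ∃ i < m, d = ex i) (c : ℕ → Bool) {O : D ⊕ D → D ⊕ D} {g : Perm D}
    (h : ∀ i ≤ m, Con O (kk g) (Sum.inr (gs ex tp c i (tp false))) (Sum.inr (gs ex tp c i (tp true)))) (x y : D ⊕ D) :
    Con O (kk g) x y := by
  have h1 : ∀ i ≤ m, ∀ σ, Con O (kk g) (Sum.inr (gs ex tp c 0 (tp false))) (Sum.inr (gs ex tp c i (tp σ))) := by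
    intro i
    induction i with
    | zero =>
      intro hm σ
      cases σ
      · exact Con.rfl'
      · exact h 0 hm
    | succ i ih =>
      intro hm
      have h2 := ih (by omega) (!c i)
      rw [← gs_other hd ht] at h2
      have h3 := h (i + 1) hm
      intro σ
      cases hc : c i <;> rw [hc] at h2 <;> cases σ
      · exact h2.trans h3.symm
      · exact h2
      · exact h2
      · exact h2.trans h3
  have h2 : ∀ d : D, Con O (kk g) (Sum.inr (gs ex tp c 0 (tp false))) (Sum.inr d) := by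
    intro d
    rcases hs d with ⟨σ, rfl⟩ | ⟨i, hm, rfl⟩
    · exact h1 0 (Nat.zero_le _) σ
    · have := h1 (i + 1) hm (c i)
      rwa [gs_self, gs_fix hd hi le_rfl hm] at this
  have h3 : ∀ x : D ⊕ D, Con O (kk g) (Sum.inr (gs ex tp c 0 (tp false))) x := by
    rintro (o | i)
    · exact (h2 (g o)).trans (con_right O (kk g) (Sum.inl o)).symm
    · exact h2 i
  exact (h3 x).symm.trans (h3 y)

/-- THE LADDER has `Sep`. -/
theorem ladder_sep [Finite D] {m : ℕ} (ht : tp false ≠ tp true) (hd : ∀ i σ, ex i ≠ tp σ)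
    (hi : ∀ i < m, ∀ j < m, ex i = ex j → i = j) (hs : ∀ d, (∃ σ, d = tp σ) ∨ ∃ i < m, d = ex i) :
    Sep {k : D ⊕ D → D ⊕ D | ∃ c : ℕ → Bool, k = kk (gs ex tp c m)} := by
  classical
  intro O hO e₁ e₂ h1 h2
  -- a configuration with the fewest pairs that are not connected
  let f : (ℕ → Bool) × Bool → ℕ := fun x => {p : (D ⊕ D) × (D ⊕ D) | ¬ Con O (kk (cfg ex tp m x)) p.1 p.2}.ncard
  have hex : ∃ n, ∃ x, f x = n := ⟨_, (fun _ => false, false), rfl⟩
  obtain ⟨x, hx⟩ := Nat.find_spec hex
  have hmin : ∀ y, f x ≤ f y := fun y => by rw [hx]; exact Nat.find_min' hex ⟨y, rfl⟩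
  have hcon : ∀ i ≤ m, Con O (kk (cfg ex tp m x)) (Sum.inr (gs ex tp x.1 i (tp false)))
      (Sum.inr (gs ex tp x.1 i (tp true))) := by
    intro i him
    by_contra hn
    have hne : gs ex tp x.1 i (tp true) ≠ gs ex tp x.1 i (tp false) := fun h =>
      ht ((gs ex tp x.1 i).injective h).symm
    obtain ⟨h3, h4⟩ := (kk_tog (cfg ex tp m x) hne).merge hO hn
    rw [cfg_tog ht hd m x him] at h3 h4
    refine absurd (hmin (flp x.1 i, !x.2)) (Nat.not_le.2 (Set.ncard_lt_ncard ?_ (Set.toFinite _)))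
    refine ⟨fun p hp hc => hp (h3 _ _ hc), fun hsub => ?_⟩
    exact hsub (show ((Sum.inr (gs ex tp x.1 i (tp false)), Sum.inr (gs ex tp x.1 i (tp true))) : (D ⊕ D) × (D ⊕ D)) ∈
      {p : (D ⊕ D) × (D ⊕ D) | ¬ Con O (kk (cfg ex tp m x)) p.1 p.2} from hn) h4
  have htot := chain ht hd hi hs x.1 hcon
  obtain ⟨c, τ⟩ := x
  cases τ
  · refine ⟨_, ⟨c, rfl⟩, fun e => Or.inl ?_⟩
    have := htot e e₁
    unfold cfg at this
    simpa using this
  · -- one more toggle
    obtain ⟨i, him, hn⟩ : ∃ i ≤ m, ¬ Con (kT O e₁ e₂) (kk (cfg ex tp m (c, true))) (Sum.inr (gs ex tp c i (tp false)))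
        (Sum.inr (gs ex tp c i (tp true))) := by
      by_contra hall
      push Not at hall
      exact disc hO (kk_inv _) h1 h2 (chain ht hd hi hs c hall)
    have hne : gs ex tp c i (tp true) ≠ gs ex tp c i (tp false) := fun h =>
      ht ((gs ex tp c i).injective h).symm
    have h3 := (kk_tog (cfg ex tp m (c, true)) hne).split hO htot hn
    rw [show gs ex tp c i = gs ex tp (c, true).1 i from rfl, cfg_tog ht hd m (c, true) him] at h3
    refine ⟨_, ⟨flp c i, rfl⟩, fun e => ?_⟩
    have := h3 e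
    unfold cfg at this
    simpa using this

end perm

end Pool.Agent.Lib.MP_688fd0_co.SQ7.H71
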